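import Pool.Agent.H37.CTP.Stmts

/-!
# Row OD2 of board ctp (MP_b57703): `p = 2`: the sum of the depths over `W ∖ H` is an odd multiple of the order of `H`
-/

set_option autoImplicit false

namespace Pool.CND

open Finset

namespace OD2H

theorem sm_filter {G : Type} [Group G] [Fintype G] (b : G → ℤ) (q : G → Prop) [DecidablePred q] :
    sm b {x | q x} = ∑ x ∈ univ.filter q, b x := by
  unfold sm
  refine Finset.sum_congr ?_ fun _ _ => rfl
  ext x
  simp

/-- the sum over `W ∖ 1` splits -/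
theorem sm_split {G : Type} [Group G] [Fintype G] (b : G → ℤ) (M W : Subgroup G) (hMW : M ≤ W) :
    sm b {h | h ∈ W ∧ h ≠ 1} = sm b {h | h ∈ M ∧ h ≠ 1} + sm b {g | g ∈ W ∧ g ∉ M} := by
  classical
  have e1 := sm_filter b (fun h => h ∈ W ∧ h ≠ 1)
  have e2 := sm_filter b (fun h => h ∈ M ∧ h ≠ 1)
  have e3 := sm_filter b (fun g => g ∈ W ∧ g ∉ M)
  rw [e1, e2, e3, ← Finset.sum_union]
  · refine Finset.sum_congr ?_ fun _ _ => rfl
    ext x
    simp only [Finset.mem_filter, Finset.mem_univ, true_and, Finset.mem_union]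
    constructor
    · rintro ⟨h1, h2⟩
      by_cases h3 : x ∈ M
      · exact Or.inl ⟨h3, h2⟩
      · exact Or.inr ⟨h1, h3⟩
    · rintro (⟨h1, h2⟩ | ⟨h1, h2⟩)
      · exact ⟨hMW h1, h2⟩
      · exact ⟨h1, fun h => h2 (h ▸ M.one_mem)⟩
  · rw [Finset.disjoint_left]
    intro x hx hx'
    exact (Finset.mem_filter.1 hx').2.2 (Finset.mem_filter.1 hx).2.1

/-- the norm of the uniformiser -/
theorem norm_pi {k L G : Type} [Field k] [Field L] [Algebra k L] [Group G] [Fintype G]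
    (P : Place k L) (ρ : G →* (L ≃ₐ[k] L)) (M : Subgroup G) (hfix : ∀ g ∈ M, Fixes P (ρ g)) :
    ∃ m : L, m ≠ 0 ∧ (∀ g ∈ M, ρ g m = m) ∧ P.ord m = Nat.card M := by
  classical
  refine ⟨∏ g : M, ρ g P.pi, ?_, ?_, ?_⟩
  · rw [Finset.prod_ne_zero_iff]
    intro g _ h
    exact P.pi_ne ((map_eq_zero _).1 h)
  · intro g hg
    rw [map_prod]
    refine Fintype.prod_equiv (Equiv.mulLeft (⟨g, hg⟩ : M)) _ _ fun x => ?_
    rw [Equiv.coe_mulLeft, Subgroup.coe_mul, map_mul, AlgEquiv.mul_apply]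
  · have h : ∀ s : Finset M, (∏ g ∈ s, ρ g P.pi) ≠ 0 ∧ P.ord (∏ g ∈ s, ρ g P.pi) = s.card := by
      intro s
      induction s using Finset.induction_on with
      | empty => simp [P.ord_one]
      | insert a s ha ih =>
        have h0 : ρ a P.pi ≠ 0 := fun h => P.pi_ne ((map_eq_zero _).1 h)
        rw [Finset.prod_insert ha]
        refine ⟨mul_ne_zero h0 ih.1, ?_⟩
        rw [P.ord_mul _ _ h0 ih.1, ih.2, hfix a a.2 _ P.pi_ne, P.ord_pi,
          Finset.card_insert_of_notMem ha]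
        push_cast
        ring
    rw [(h univ).2, Finset.card_univ, Nat.card_eq_fintype_card]

end OD2H

/-- **OD2** -/
theorem od2_thm (h1 : S_DF1) (h2 : S_DF2) (h3 : S_DV0) : S_OD2 := by
  intro k L G _ _ _ _ _ P ρ H W d hch hinj hram hHW hcard
  obtain ⟨φ, D, hD⟩ := h3 2 k L P Nat.prime_two hch
  obtain ⟨z, hz0, hzfix, hzord⟩ := OD2H.norm_pi P ρ W fun g hg => (hram g hg).1
  obtain ⟨hDz0, hDz⟩ := (h1 2 k L G P φ D ρ W z 1 Nat.prime_two hch hinj hram hD hz0 hzfix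
    (by rw [hzord, one_mul])).2 (by norm_num)
  obtain ⟨n, hn⟩ := h2 k L G P φ D ρ H z hch hinj (fun g hg => hram g (hHW hg)) hD
    (fun h hh => hzfix h (hHW hh)) hDz0
  have hsplit := OD2H.sm_split (fun g => P.b (ρ g)) H W hHW
  have hc : (Nat.card W : ℤ) = 2 ^ (d + 1) * Nat.card H := by exact_mod_cast hcard
  refine ⟨n - 2 ^ d, ?_⟩
  rw [hDz, hzord, hc, pow_succ] at hn
  linear_combination hn - hsplit

end Pool.CND
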